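import Mathlib

/-!
# Windows with a local reproducing formula are Hermite functions

We prove that a nonzero window `g ∈ L²(ℝ)` which admits a local reproducing formula on all discs
(in fact: for a sequence of radii tending to zero) is, up to a constant and a time-frequency
shift, a Hermite function.

Sketch.  Testing the formula at `z = 0` with the Gaussians `f = ker ζ` (`ζ ∈ ℂ`) turns it into
an identity for the entire function `G(ζ) = Barg g ζ`:
`C_R G(ζ) = ∫_{|ω| < R} A(ω) exp(-π|ω|²/2 + π ζ conj ω) G(ζ - ω) dω`, where `A` is the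
(symmetrised) ambiguity function of `g`, which is continuous with `A(-ω) = conj (A ω)` and
`A(0) = ‖g‖²`.  Expanding to second order as `R → 0` and using that a finite dimensional space of
functions is closed under pointwise limits, one finds constants `q, γ` with
`(π ζ + q) G'(ζ) = (γ - π conj(q) ζ) G(ζ)`.  The nonzero entire solutions are
`c (ζ - ζ₀)^n exp(π conj(ζ₀) (ζ - ζ₀))`, and these are the transforms of shifted Hermite
functions.  Injectivity of the transform follows from injectivity of the Fourier transform.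
-/

open MeasureTheory Filter Topology Complex Asymptotics
open scoped Real ComplexConjugate FourierTransform SchwartzMap

namespace Pool.Agent.Results.MP_42c7e8_an.HermiteOnly

noncomputable section

/-! ### Definitions used in the statement -/

/-- The time-frequency shift `π(z) g (t) = e^{2 π i ξ t} g (t - x)` for `z = (x, ξ)`. -/
def tfShift (z : ℝ × ℝ) (g : ℝ → ℂ) (t : ℝ) : ℂ :=
  cexp (2 * π * I * z.2 * t) * g (t - z.1)

/-- The inner product `⟨f, h⟩ = ∫ f(t) conj(h(t)) dt`. -/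
def ip (f h : ℝ → ℂ) : ℂ := ∫ t, f t * conj (h t)

/-- The short-time Fourier transform `V_g f (z) = ⟨f, π(z) g⟩`. -/
def stft (g f : ℝ → ℂ) (z : ℝ × ℝ) : ℂ := ip f (tfShift z g)

/-- The open disc of radius `R` about `z` in the time-frequency plane. -/
def disc (z : ℝ × ℝ) (R : ℝ) : Set (ℝ × ℝ) := {w | (w.1 - z.1) ^ 2 + (w.2 - z.2) ^ 2 < R ^ 2}

/-- `g` admits a local reproducing formula on the discs of radius `R`. -/
def LocalReproducing (g : ℝ → ℂ) (R : ℝ) : Prop :=
  ∃ C : ℂ, C ≠ 0 ∧ ∀ f : ℝ → ℂ, MemLp f 2 volume → ∀ z : ℝ × ℝ,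
    C * stft g f z = ∫ w in disc z R, ip (tfShift w g) (tfShift z g) * stft g f w

/-- The function `e^{π t²} (d/dt)^n e^{-2π t²}`. -/
def hermiteRaw (n : ℕ) (t : ℝ) : ℝ :=
  Real.exp (π * t ^ 2) * iteratedDeriv n (fun s : ℝ => Real.exp (-2 * π * s ^ 2)) t

/-- The Hermite function `h_n(t) = c_n e^{π t²} (d/dt)^n e^{-2π t²}`, where `c_n > 0` is the
reciprocal of the `L²` norm of `e^{π t²} (d/dt)^n e^{-2π t²}`. -/
def hermiteFn (n : ℕ) (t : ℝ) : ℂ :=
  (((Real.sqrt (∫ s, hermiteRaw n s ^ 2))⁻¹ * hermiteRaw n t : ℝ) : ℂ)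

/-! ### Proof -/

lemma integrable_mul_conj {f g : ℝ → ℂ} (hf : MemLp f 2 volume) (hg : MemLp g 2 volume) :
    Integrable (fun t => f t * conj (g t)) volume := by
  have hg' : MemLp (fun t => conj (g t)) 2 volume := hg.star
  exact hf.integrable_mul hg'

lemma norm_modulation (s t : ℝ) : ‖cexp (2 * π * I * s * t)‖ = 1 := by
  have : (2 * π * I * s * t : ℂ) = ((2 * π * s * t : ℝ) : ℂ) * I := by push_cast; ring
  rw [this, Complex.norm_exp_ofReal_mul_I]

lemma norm_tfShift (z : ℝ × ℝ) (g : ℝ → ℂ) (t : ℝ) : ‖tfShift z g t‖ = ‖g (t - z.1)‖ := by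
  rw [tfShift, norm_mul, norm_modulation, one_mul]

lemma memLp_translate {g : ℝ → ℂ} (hg : MemLp g 2 volume) (x : ℝ) :
    MemLp (fun t => g (t - x)) 2 volume :=
  hg.comp_measurePreserving (measurePreserving_sub_right volume x)

lemma memLp_tfShift {g : ℝ → ℂ} (hg : MemLp g 2 volume) (z : ℝ × ℝ) :
    MemLp (tfShift z g) 2 volume := by
  refine (memLp_translate hg z.1).of_le ?_ (Eventually.of_forall fun t => (norm_tfShift z g t).le)
  refine AEStronglyMeasurable.mul ?_ (memLp_translate hg z.1).aestronglyMeasurable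
  have : Continuous fun t : ℝ => cexp (2 * π * I * z.2 * t) := by fun_prop
  exact this.aestronglyMeasurable

/-- Cauchy-Schwarz in the form used below. -/
lemma norm_integral_le_of_memLp {f h : ℝ → ℂ} (hf : MemLp f 2 volume) (hh : MemLp h 2 volume) :
    ‖∫ t, f t * conj (h t)‖ ≤ ‖hf.toLp f‖ * ‖hh.toLp h‖ := by
  have h1 : (∫ t, f t * conj (h t)) = inner ℂ (hh.toLp h) (hf.toLp f) := by
    rw [L2.inner_def]
    refine integral_congr_ae ?_
    filter_upwards [hf.coeFn_toLp, hh.coeFn_toLp] with t ht1 ht2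
    rw [ht1, ht2, RCLike.inner_apply]
  rw [h1, mul_comm]
  exact norm_inner_le_norm _ _

lemma continuous_ambiguity {g : ℝ → ℂ} (hg : MemLp g 2 volume) :
    Continuous (fun w : ℝ × ℝ => ip (tfShift w g) g) := by
  rw [continuous_iff_continuousAt]
  rintro ⟨x₀, ξ₀⟩
  -- translations are continuous in `L²`
  let τ : ℝ → Lp ℂ 2 (volume : Measure ℝ) := fun x => (memLp_translate hg x).toLp _
  have hτ : Continuous τ := by
    let φ : ℝ → C(ℝ, ℝ) := fun x => ⟨fun t => t - x, by fun_prop⟩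
    have hφ : Continuous φ :=
      ContinuousMap.continuous_of_continuous_uncurry _ (by
        simp only [φ]
        exact continuous_snd.sub continuous_fst)
    exact (continuous_const (y := hg.toLp g)).compMeasurePreservingLp hφ
      (fun x => measurePreserving_sub_right volume x) (by norm_num)
  -- split the function
  have hsplit : ∀ w : ℝ × ℝ, ip (tfShift w g) g =
      (∫ t : ℝ, (g (t - w.1) - g (t - x₀)) * conj (cexp (-(2 * π * I * w.2 * t)) * g t)) +
      ∫ t : ℝ, cexp (2 * π * I * w.2 * t) * (g (t - x₀) * conj (g t)) := by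
    intro w
    have hconj : ∀ t : ℝ, conj (cexp (-(2 * π * I * w.2 * t))) = cexp (2 * π * I * w.2 * t) := by
      intro t
      rw [← Complex.exp_conj]
      congr 1
      simp only [map_neg, map_mul, Complex.conj_I, Complex.conj_ofReal, map_ofNat]
      ring
    have hmod : MemLp (fun t : ℝ => cexp (-(2 * π * I * w.2 * t)) * g t) 2 volume := by
      refine hg.of_le ?_ (Eventually.of_forall fun t => ?_)
      · refine AEStronglyMeasurable.mul ?_ hg.aestronglyMeasurable
        have : Continuous fun t : ℝ => cexp (-(2 * π * I * w.2 * t)) := by fun_prop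
        exact this.aestronglyMeasurable
      · rw [norm_mul]
        have h1 : (-(2 * π * I * w.2 * t) : ℂ) = 2 * π * I * (((-w.2 : ℝ)) : ℂ) * t := by
          push_cast; ring
        rw [h1, norm_modulation, one_mul]
    have i1 : Integrable (fun t => (g (t - w.1) - g (t - x₀)) *
        conj (cexp (-(2 * π * I * w.2 * t)) * g t)) volume :=
      integrable_mul_conj ((memLp_translate hg w.1).sub (memLp_translate hg x₀)) hmod
    have i2 : Integrable (fun t : ℝ => cexp (2 * π * I * w.2 * t) * (g (t - x₀) * conj (g t)))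
        volume := by
      have := integrable_mul_conj (memLp_tfShift hg (x₀, w.2)) hg
      refine this.congr (Eventually.of_forall fun t => ?_)
      simp only [tfShift]
      ring
    rw [← integral_add i1 i2, ip]
    refine integral_congr_ae (Eventually.of_forall fun t => ?_)
    simp only [tfShift, map_mul, hconj]
    ring
  have hfun : (fun w : ℝ × ℝ => ip (tfShift w g) g) = fun w =>
      (∫ t : ℝ, (g (t - w.1) - g (t - x₀)) * conj (cexp (-(2 * π * I * w.2 * t)) * g t)) +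
      ∫ t : ℝ, cexp (2 * π * I * w.2 * t) * (g (t - x₀) * conj (g t)) := funext hsplit
  rw [hfun]
  refine ContinuousAt.add ?_ ?_
  · -- first term tends to zero
    have hval : (∫ t : ℝ, (g (t - ((x₀, ξ₀) : ℝ × ℝ).1) - g (t - x₀)) *
        conj (cexp (-(2 * π * I * ((x₀, ξ₀) : ℝ × ℝ).2 * t)) * g t)) = 0 := by
      simp
    rw [ContinuousAt, hval]
    apply squeeze_zero_norm (a := fun w : ℝ × ℝ => ‖τ w.1 - τ x₀‖ * ‖hg.toLp g‖)
    · intro w
      have hmod : MemLp (fun t : ℝ => cexp (-(2 * π * I * w.2 * t)) * g t) 2 volume := by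
        refine hg.of_le ?_ (Eventually.of_forall fun t => ?_)
        · refine AEStronglyMeasurable.mul ?_ hg.aestronglyMeasurable
          have : Continuous fun t : ℝ => cexp (-(2 * π * I * w.2 * t)) := by fun_prop
          exact this.aestronglyMeasurable
        · rw [norm_mul]
          have h1 : (-(2 * π * I * w.2 * t) : ℂ) = 2 * π * I * (((-w.2 : ℝ)) : ℂ) * t := by
            push_cast; ring
          rw [h1, norm_modulation, one_mul]
      refine (norm_integral_le_of_memLp ((memLp_translate hg w.1).sub (memLp_translate hg x₀))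
        hmod).trans ?_
      have e1 : ‖((memLp_translate hg w.1).sub (memLp_translate hg x₀)).toLp _‖ =
          ‖τ w.1 - τ x₀‖ := by
        simp only [τ]
        rw [← MemLp.toLp_sub]
      have e2 : ‖hmod.toLp _‖ ≤ ‖hg.toLp g‖ := by
        rw [Lp.norm_toLp, Lp.norm_toLp]
        refine ENNReal.toReal_mono hg.2.ne (eLpNorm_mono fun t => ?_)
        rw [norm_mul]
        have h1 : (-(2 * π * I * w.2 * t) : ℂ) = 2 * π * I * (((-w.2 : ℝ)) : ℂ) * t := by
          push_cast; ring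
        rw [h1, norm_modulation, one_mul]
      rw [← e1]
      exact mul_le_mul_of_nonneg_left e2 (norm_nonneg _)
    · have h1 : Tendsto (fun w : ℝ × ℝ => ‖τ w.1 - τ x₀‖ * ‖hg.toLp g‖) (𝓝 (x₀, ξ₀))
          (𝓝 (‖τ x₀ - τ x₀‖ * ‖hg.toLp g‖)) := by
        have : Continuous fun w : ℝ × ℝ => ‖τ w.1 - τ x₀‖ * ‖hg.toLp g‖ := by fun_prop
        exact this.tendsto (x₀, ξ₀)
      simpa using h1
  · -- second term: dominated convergence
    apply Continuous.continuousAt
    have hint : Integrable (fun t => g (t - x₀) * conj (g t)) volume :=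
      integrable_mul_conj (memLp_translate hg x₀) hg
    refine continuous_of_dominated (bound := fun t => ‖g (t - x₀) * conj (g t)‖) ?_ ?_ hint.norm ?_
    · intro w
      refine AEStronglyMeasurable.mul ?_ hint.aestronglyMeasurable
      have : Continuous fun t : ℝ => cexp (2 * π * I * w.2 * t) := by fun_prop
      exact this.aestronglyMeasurable
    · intro w
      refine Eventually.of_forall fun t => ?_
      rw [norm_mul, norm_modulation, one_mul]
    · refine Eventually.of_forall fun t => ?_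
      fun_prop


/-- The kernel of the Bargmann transform. -/
def ker (ζ : ℂ) (t : ℝ) : ℂ := cexp (-π * t ^ 2 + 2 * π * ζ * t - π * ζ ^ 2 / 2)

lemma ker_norm (ζ : ℂ) (t : ℝ) :
    ‖ker ζ t‖ = Real.exp (-π * t ^ 2 + 2 * π * ζ.re * t - π * (ζ ^ 2).re / 2) := by
  rw [ker, Complex.norm_exp]
  congr 1
  have h1 : (-π * (t : ℂ) ^ 2 + 2 * π * ζ * t - π * ζ ^ 2 / 2).re =
      -π * t ^ 2 + 2 * π * ζ.re * t - π * (ζ ^ 2).re / 2 := by
    have h2 : (-π * (t : ℂ) ^ 2) = ((-π * t ^ 2 : ℝ) : ℂ) := by push_cast; ring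
    have h3 : (2 * π * ζ * t : ℂ) = ((2 * π * t : ℝ) : ℂ) * ζ := by push_cast; ring
    have h4 : (π * ζ ^ 2 / 2 : ℂ) = ((π / 2 : ℝ) : ℂ) * ζ ^ 2 := by push_cast; ring
    rw [h2, h3, h4, Complex.sub_re, Complex.add_re, Complex.ofReal_re, Complex.re_ofReal_mul,
      Complex.re_ofReal_mul]
    ring
  exact h1

lemma ker_continuous : Continuous (fun p : ℂ × ℝ => ker p.1 p.2) := by
  unfold ker; fun_prop

lemma ker_continuous_right (ζ : ℂ) : Continuous (ker ζ) := by
  unfold ker; fun_prop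

/-- real Gaussians with a linear term are square integrable -/
lemma gauss_memLp (c d : ℝ) :
    MemLp (fun t : ℝ => Real.exp (-π * t ^ 2 + c * t + d)) 2 volume := by
  have hcont : Continuous (fun t : ℝ => Real.exp (-π * t ^ 2 + c * t + d)) := by fun_prop
  rw [memLp_two_iff_integrable_sq hcont.aestronglyMeasurable]
  have h := integrable_cexp_quadratic' (b := ((-2 * π : ℝ) : ℂ))
    (by rw [Complex.ofReal_re]; have := Real.pi_pos; linarith) ((2 * c : ℝ) : ℂ) ((2 * d : ℝ) : ℂ)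
  have h' := h.re
  refine h'.congr (Eventually.of_forall fun t => ?_)
  simp only
  have : (((-2 * π : ℝ) : ℂ) * (t : ℂ) ^ 2 + ((2 * c : ℝ) : ℂ) * t + ((2 * d : ℝ) : ℂ)) =
      ((2 * (-π * t ^ 2 + c * t + d) : ℝ) : ℂ) := by push_cast; ring
  rw [this, ← Complex.ofReal_exp]
  simp only [RCLike.re_to_complex, Complex.ofReal_re]
  rw [← Real.exp_nat_mul]
  norm_num

lemma ker_memLp (ζ : ℂ) : MemLp (ker ζ) 2 volume := by
  refine (gauss_memLp (2 * π * ζ.re) (-(π * (ζ ^ 2).re / 2))).of_le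
    (ker_continuous_right ζ).aestronglyMeasurable (Eventually.of_forall fun t => ?_)
  rw [ker_norm, Real.norm_of_nonneg (Real.exp_pos _).le]
  apply le_of_eq
  congr 1

/-- The Bargmann type transform of `conj g`. -/
def Barg (g : ℝ → ℂ) (ζ : ℂ) : ℂ := ∫ t, ker ζ t * conj (g t)

lemma hasDerivAt_ker (ζ : ℂ) (t : ℝ) :
    HasDerivAt (fun z => ker z t) (ker ζ t * (2 * π * t - π * ζ)) ζ := by
  unfold ker
  have h1 : HasDerivAt (fun z : ℂ => -π * (t : ℂ) ^ 2 + 2 * π * z * t - π * z ^ 2 / 2)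
      (2 * π * t - π * ζ) ζ := by
    have h2 : HasDerivAt (fun z : ℂ => 2 * π * z * (t : ℂ)) (2 * π * t) ζ := by
      have := ((hasDerivAt_id ζ).const_mul (2 * π : ℂ)).mul_const (t : ℂ)
      simpa using this
    have h3 : HasDerivAt (fun z : ℂ => π * z ^ 2 / 2) (π * ζ) ζ := by
      have h5 := ((hasDerivAt_pow 2 ζ).const_mul (π : ℂ)).div_const 2
      have h6 : (π * ζ : ℂ) = π * (((2 : ℕ) : ℂ) * ζ ^ (2 - 1)) / 2 := by
        push_cast
        ring
      rw [h6]
      exact h5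
    have h4 := (h2.const_add (-π * (t : ℂ) ^ 2)).sub h3
    exact h4
  exact h1.cexp

lemma barg_differentiable {g : ℝ → ℂ} (hg : MemLp g 2 volume) : Differentiable ℂ (Barg g) := by
  intro ζ₀
  set M : ℝ := ‖ζ₀‖ + 1 with hM
  have hMpos : 0 ≤ M := by positivity
  -- the dominating function
  let b : ℝ → ℝ := fun t =>
    Real.exp (-π * t ^ 2 + (2 * π * (M + 1)) * t + (π * M ^ 2 / 2 + π * M)) +
    Real.exp (-π * t ^ 2 + (-(2 * π * (M + 1))) * t + (π * M ^ 2 / 2 + π * M))
  have hb : MemLp b 2 volume := (gauss_memLp _ _).add (gauss_memLp _ _)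
  have hbound : ∀ t : ℝ, ∀ ζ ∈ Metric.ball ζ₀ 1, ‖ker ζ t * (2 * π * t - π * ζ)‖ ≤ b t := by
    intro t ζ hζ
    have hζM : ‖ζ‖ ≤ M := by
      have h1 : ‖ζ - ζ₀‖ < 1 := by simpa [dist_eq_norm] using hζ
      have h2 : ‖ζ‖ ≤ ‖ζ - ζ₀‖ + ‖ζ₀‖ := by
        simpa using norm_add_le (ζ - ζ₀) ζ₀
      linarith
    have hre : |ζ.re| ≤ M := (Complex.abs_re_le_norm ζ).trans hζM
    have hsq : |(ζ ^ 2).re| ≤ M ^ 2 := by
      refine (Complex.abs_re_le_norm _).trans ?_
      rw [norm_pow]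
      gcongr
    have h1 : ‖ker ζ t‖ ≤ Real.exp (-π * t ^ 2 + 2 * π * M * |t| + π * M ^ 2 / 2) := by
      rw [ker_norm]
      apply Real.exp_le_exp.2
      have h2 : ζ.re * t ≤ M * |t| := by
        calc ζ.re * t ≤ |ζ.re * t| := le_abs_self _
          _ = |ζ.re| * |t| := abs_mul _ _
          _ ≤ M * |t| := by gcongr
      have h3 : -(ζ ^ 2).re ≤ M ^ 2 := (neg_le_abs _).trans hsq
      have hpi := Real.pi_pos
      nlinarith
    have h2 : ‖(2 * π * t - π * ζ : ℂ)‖ ≤ Real.exp (2 * π * |t| + π * M) := by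
      have h3 : ‖(2 * π * t - π * ζ : ℂ)‖ ≤ 2 * π * |t| + π * M := by
        refine (norm_sub_le _ _).trans ?_
        have h4 : ‖(2 * π * t : ℂ)‖ = 2 * π * |t| := by
          rw [norm_mul, norm_mul, Complex.norm_real, Complex.norm_real, Real.norm_eq_abs,
            Real.norm_eq_abs, abs_of_pos Real.pi_pos]
          norm_num
        have h5 : ‖(π * ζ : ℂ)‖ ≤ π * M := by
          rw [norm_mul, Complex.norm_real, Real.norm_eq_abs, abs_of_pos Real.pi_pos]
          gcongr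
        linarith
      have := Real.add_one_le_exp (2 * π * |t| + π * M)
      linarith
    calc ‖ker ζ t * (2 * π * t - π * ζ)‖ = ‖ker ζ t‖ * ‖(2 * π * t - π * ζ : ℂ)‖ := norm_mul _ _
      _ ≤ Real.exp (-π * t ^ 2 + 2 * π * M * |t| + π * M ^ 2 / 2) *
          Real.exp (2 * π * |t| + π * M) := by gcongr
      _ = Real.exp (-π * t ^ 2 + 2 * π * (M + 1) * |t| + (π * M ^ 2 / 2 + π * M)) := by
          rw [← Real.exp_add]; congr 1; ring
      _ ≤ b t := by
          simp only [b]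
          rcases le_total 0 t with ht | ht
          · rw [abs_of_nonneg ht]
            have := Real.exp_pos
              (-π * t ^ 2 + (-(2 * π * (M + 1))) * t + (π * M ^ 2 / 2 + π * M))
            linarith
          · rw [abs_of_nonpos ht]
            have := Real.exp_pos
              (-π * t ^ 2 + (2 * π * (M + 1)) * t + (π * M ^ 2 / 2 + π * M))
            have h6 : -π * t ^ 2 + 2 * π * (M + 1) * -t + (π * M ^ 2 / 2 + π * M) =
              -π * t ^ 2 + (-(2 * π * (M + 1))) * t + (π * M ^ 2 / 2 + π * M) := by ring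
            rw [h6]
            linarith
  have key := hasDerivAt_integral_of_dominated_loc_of_deriv_le (μ := volume) (𝕜 := ℂ)
    (F := fun ζ t => ker ζ t * conj (g t))
    (F' := fun ζ t => (ker ζ t * (2 * π * t - π * ζ)) * conj (g t))
    (x₀ := ζ₀) (s := Metric.ball ζ₀ 1) (bound := fun t => b t * ‖g t‖)
    (Metric.ball_mem_nhds ζ₀ one_pos)
    (Eventually.of_forall fun ζ => (integrable_mul_conj (ker_memLp ζ) hg).aestronglyMeasurable)
    (integrable_mul_conj (ker_memLp ζ₀) hg)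
    (by
      refine AEStronglyMeasurable.mul ?_ (hg.star).aestronglyMeasurable
      have : Continuous fun t : ℝ => ker ζ₀ t * (2 * π * t - π * ζ₀) := by
        have := ker_continuous_right ζ₀
        fun_prop
      exact this.aestronglyMeasurable)
    (Eventually.of_forall fun t ζ hζ => by
      rw [norm_mul, RCLike.norm_conj]
      exact mul_le_mul_of_nonneg_right (hbound t ζ hζ) (norm_nonneg _))
    (hb.integrable_mul hg.norm)
    (Eventually.of_forall fun t ζ _ => (hasDerivAt_ker ζ t).mul_const _)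
  exact key.2.differentiableAt


lemma tfShift_zero (g : ℝ → ℂ) : tfShift 0 g = g := by
  funext t
  simp [tfShift]

lemma conj_modulation (s t : ℝ) : conj (cexp (2 * π * I * s * t)) = cexp (-(2 * π * I * s * t)) := by
  rw [← Complex.exp_conj]
  congr 1
  simp only [map_mul, Complex.conj_I, Complex.conj_ofReal, map_ofNat]
  ring

lemma ker_shift (ζ : ℂ) (x ξ t : ℝ) :
    ker ζ (t + x) * cexp (-(2 * π * I * ξ * ((t + x : ℝ) : ℂ))) =
      cexp (-(π * I * x * ξ)) * cexp (-π * (x ^ 2 + ξ ^ 2) / 2 + π * ζ * (x - ξ * I)) *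
        ker (ζ - (x + ξ * I)) t := by
  unfold ker
  rw [← Complex.exp_add, ← Complex.exp_add, ← Complex.exp_add]
  congr 1
  push_cast
  ring_nf
  simp only [Complex.I_sq]
  ring

lemma ip_ker_tfShift (g : ℝ → ℂ) (ζ : ℂ) (w : ℝ × ℝ) :
    ip (ker ζ) (tfShift w g) = cexp (-(π * I * w.1 * w.2)) *
      (cexp (-π * (w.1 ^ 2 + w.2 ^ 2) / 2 + π * ζ * (w.1 - w.2 * I)) *
        Barg g (ζ - (w.1 + w.2 * I))) := by
  unfold ip
  rw [← integral_add_right_eq_self _ w.1]
  have h1 : ∀ t : ℝ, ker ζ (t + w.1) * conj (tfShift w g (t + w.1)) =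
      (cexp (-(π * I * w.1 * w.2)) *
        cexp (-π * (w.1 ^ 2 + w.2 ^ 2) / 2 + π * ζ * (w.1 - w.2 * I))) *
        (ker (ζ - (w.1 + w.2 * I)) t * conj (g t)) := by
    intro t
    rw [tfShift, map_mul, conj_modulation, ← mul_assoc, ker_shift, add_sub_cancel_right]
    ring
  simp_rw [h1]
  rw [integral_const_mul, Barg]
  ring

/-- The symmetrised ambiguity function of `g`, as a function on `ℂ`. -/
def amb (g : ℝ → ℂ) (ω : ℂ) : ℂ :=
  cexp (-(π * I * ω.re * ω.im)) * ip (tfShift (ω.re, ω.im) g) g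

lemma continuous_amb {g : ℝ → ℂ} (hg : MemLp g 2 volume) : Continuous (amb g) := by
  unfold amb
  have h1 : Continuous fun ω : ℂ => ip (tfShift (ω.re, ω.im) g) g :=
    (continuous_ambiguity hg).comp (Complex.continuous_re.prodMk Complex.continuous_im)
  have h2 : Continuous fun ω : ℂ => cexp (-(π * I * ω.re * ω.im)) := by fun_prop
  exact h2.mul h1

lemma amb_neg (g : ℝ → ℂ) (ω : ℂ) : amb g (-ω) = conj (amb g ω) := by
  have h1 : ip (tfShift ((-ω).re, (-ω).im) g) g =
      cexp (2 * π * I * ω.re * ω.im) * conj (ip (tfShift (ω.re, ω.im) g) g) := by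
    unfold ip
    rw [← integral_conj, ← integral_const_mul, ← integral_sub_right_eq_self _ ω.re]
    refine integral_congr_ae (Eventually.of_forall fun t => ?_)
    simp only [tfShift, map_mul, conj_modulation, Complex.conj_conj, Complex.neg_re,
      Complex.neg_im, sub_neg_eq_add, sub_add_cancel]
    have h2 : cexp (2 * π * I * ((-ω.im : ℝ) : ℂ) * ((t - ω.re : ℝ) : ℂ)) =
        cexp (2 * π * I * ω.re * ω.im) * cexp (-(2 * π * I * ω.im * t)) := by
      rw [← Complex.exp_add]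
      congr 1
      push_cast
      ring
    rw [h2]
    ring
  unfold amb
  rw [h1, map_mul, ← mul_assoc, ← Complex.exp_conj, ← Complex.exp_add]
  congr 1
  congr 1
  simp only [map_neg, map_mul, Complex.conj_I, Complex.conj_ofReal, Complex.neg_re, Complex.neg_im]
  push_cast
  ring

lemma amb_zero (g : ℝ → ℂ) : amb g 0 = ((∫ t, ‖g t‖ ^ 2 : ℝ) : ℂ) := by
  unfold amb
  have h0 : (((0 : ℂ).re, (0 : ℂ).im) : ℝ × ℝ) = 0 := by simp
  rw [h0, tfShift_zero]
  simp only [Complex.zero_re, Complex.ofReal_zero, mul_zero, zero_mul, neg_zero, Complex.exp_zero,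
    one_mul, ip]
  rw [← integral_complex_ofReal]
  refine integral_congr_ae (Eventually.of_forall fun t => ?_)
  simp only [Complex.mul_conj, Complex.normSq_eq_norm_sq]

lemma norm_sq_re_im (ω : ℂ) : ‖ω‖ ^ 2 = ω.re ^ 2 + ω.im ^ 2 := by
  rw [Complex.sq_norm, Complex.normSq_apply]
  ring

lemma integral_disc_eq (F : ℝ × ℝ → ℂ) {R : ℝ} (hR : 0 < R) :
    ∫ w in disc 0 R, F w = ∫ ω in Metric.ball (0 : ℂ) R, F (ω.re, ω.im) := by
  have h1 := (Complex.volume_preserving_equiv_real_prod).setIntegral_preimage_emb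
    Complex.measurableEquivRealProd.measurableEmbedding F (disc 0 R)
  rw [← h1]
  have h2 : Complex.measurableEquivRealProd ⁻¹' (disc 0 R) = Metric.ball (0 : ℂ) R := by
    ext ω
    simp only [Set.mem_preimage, disc, Complex.measurableEquivRealProd_apply, Metric.mem_ball,
      dist_zero_right]
    simp only [Set.mem_ofPred_eq, Prod.fst_zero, Prod.snd_zero, sub_zero]
    rw [← norm_sq_re_im]
    constructor
    · intro h
      exact lt_of_pow_lt_pow_left₀ 2 hR.le h
    · intro h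
      gcongr
  rw [h2]
  rfl

/-- The consequence of the local reproducing formula used below. -/
lemma formula_barg {g : ℝ → ℂ} {R : ℝ} (hR : 0 < R) (h : LocalReproducing g R) :
    ∃ C : ℂ, ∀ ζ : ℂ, C * Barg g ζ = ∫ ω in Metric.ball (0 : ℂ) R, amb g ω *
      (cexp (-π * (‖ω‖ : ℂ) ^ 2 / 2 + π * ζ * conj ω) * Barg g (ζ - ω)) := by
  obtain ⟨C, -, hC⟩ := h
  refine ⟨C, fun ζ => ?_⟩
  have h1 := hC (ker ζ) (ker_memLp ζ) 0
  rw [tfShift_zero, integral_disc_eq _ hR] at h1
  have h2 : stft g (ker ζ) 0 = Barg g ζ := by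
    rw [stft, tfShift_zero]; rfl
  rw [h2] at h1
  rw [h1]
  refine integral_congr_ae (Eventually.of_forall fun ω => ?_)
  simp only [stft, ip_ker_tfShift, amb]
  have h3 : ((ω.re : ℂ) + ω.im * I) = ω := Complex.re_add_im ω
  have h4 : ((ω.re : ℂ) - ω.im * I) = conj ω := by
    apply Complex.ext <;> simp
  have h5 : ((ω.re : ℂ) ^ 2 + (ω.im : ℂ) ^ 2) = (‖ω‖ : ℂ) ^ 2 := by
    rw [← Complex.ofReal_pow, ← Complex.ofReal_pow, ← Complex.ofReal_pow, ← Complex.ofReal_add,
      norm_sq_re_im]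
  rw [h3, h4, h5]
  ring


lemma exp_expansion : (fun x : ℂ => cexp x - (1 + x + x ^ 2 / 2)) =O[𝓝 0] fun x => ‖x‖ ^ 3 := by
  refine IsBigO.of_bound (Real.exp 1) ?_
  filter_upwards [Metric.ball_mem_nhds (0 : ℂ) one_pos] with x hx
  have hx1 : ‖x‖ ≤ 1 := by
    have : ‖x‖ < 1 := by simpa using hx
    exact this.le
  have h := Complex.norm_exp_sub_sum_le_norm_mul_exp x 3
  have hs : ∑ m ∈ Finset.range 3, x ^ m / (m.factorial : ℂ) = 1 + x + x ^ 2 / 2 := by
    simp [Finset.sum_range_succ, Nat.factorial]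
  rw [hs] at h
  rw [norm_pow, norm_norm, mul_comm]
  refine h.trans ?_
  gcongr

/-- Second order expansion of an entire function. -/
lemma entire_expansion {G : ℂ → ℂ} (hG : Differentiable ℂ G) (ζ : ℂ) :
    ∃ α : ℂ, (fun ω : ℂ => G (ζ - ω) - (G ζ - deriv G ζ * ω + α * ω ^ 2)) =O[𝓝 0]
      fun ω => ‖ω‖ ^ 3 := by
  obtain ⟨p, hp⟩ := hG.analyticAt ζ
  refine ⟨p.coeff 2, ?_⟩
  have h1 := hp.isBigO_sub_partialSum_pow 3
  have h2 : Tendsto (fun ω : ℂ => -ω) (𝓝 0) (𝓝 0) := by
    have := (continuous_neg (G := ℂ)).tendsto 0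
    simpa using this
  have h3 := h1.comp_tendsto h2
  have h4 : ((fun y : ℂ => G (ζ + y) - p.partialSum 3 y) ∘ fun ω : ℂ => -ω) =
      fun ω : ℂ => G (ζ - ω) - (G ζ - deriv G ζ * ω + p.coeff 2 * ω ^ 2) := by
    funext ω
    simp only [Function.comp_apply, FormalMultilinearSeries.partialSum, Finset.sum_range_succ,
      Finset.range_zero, Finset.sum_empty, zero_add, FormalMultilinearSeries.apply_eq_pow_smul_coeff]
    have e0 : p.coeff 0 = G ζ := by
      have := hp.coeff_zero (fun _ => 1)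
      exact this
    have e1 : p.coeff 1 = deriv G ζ := by
      rw [hp.deriv]
      rfl
    rw [e0, e1]
    simp only [pow_zero, pow_one, smul_eq_mul, one_mul, neg_mul, even_two, Even.neg_pow]
    ring_nf
  rw [h4] at h3
  have h5 : ((fun y : ℂ => ‖y‖ ^ 3) ∘ fun ω : ℂ => -ω) = fun ω : ℂ => ‖ω‖ ^ 3 := by
    funext ω
    simp
  rw [h5] at h3
  exact h3

/-- The second order expansion of the integrand. -/
lemma integrand_expansion {G : ℂ → ℂ} (hG : Differentiable ℂ G) (ζ : ℂ) :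
    ∃ α β : ℂ, (fun ω : ℂ => cexp (-π * (‖ω‖ : ℂ) ^ 2 / 2 + π * ζ * conj ω) * G (ζ - ω) -
      (G ζ + (π * ζ * G ζ * conj ω - deriv G ζ * ω) +
        (-(π / 2 * G ζ + π * ζ * deriv G ζ) * (‖ω‖ : ℂ) ^ 2 + α * ω ^ 2 + β * (conj ω) ^ 2)))
      =O[𝓝 0] fun ω => ‖ω‖ ^ 3 := by
  obtain ⟨α, hα⟩ := entire_expansion hG ζ
  refine ⟨α, (π * ζ) ^ 2 / 2 * G ζ, ?_⟩
  -- basic size estimates
  have o1 : ∀ c : ℂ, (fun ω : ℂ => c * ω) =O[𝓝 0] fun ω => ‖ω‖ := by
    intro c
    refine IsBigO.of_bound ‖c‖ (Eventually.of_forall fun ω => ?_)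
    simp
  have o1' : ∀ c : ℂ, (fun ω : ℂ => c * conj ω) =O[𝓝 0] fun ω => ‖ω‖ := by
    intro c
    refine IsBigO.of_bound ‖c‖ (Eventually.of_forall fun ω => ?_)
    simp
  have o2 : ∀ c : ℂ, (fun ω : ℂ => c * (‖ω‖ : ℂ) ^ 2) =O[𝓝 0] fun ω => ‖ω‖ ^ 2 := by
    intro c
    refine IsBigO.of_bound ‖c‖ (Eventually.of_forall fun ω => ?_)
    simp
  have o2' : ∀ c : ℂ, (fun ω : ℂ => c * ω ^ 2) =O[𝓝 0] fun ω => ‖ω‖ ^ 2 := by
    intro c
    refine IsBigO.of_bound ‖c‖ (Eventually.of_forall fun ω => ?_)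
    simp
  have o2'' : ∀ c : ℂ, (fun ω : ℂ => c * (conj ω) ^ 2) =O[𝓝 0] fun ω => ‖ω‖ ^ 2 := by
    intro c
    refine IsBigO.of_bound ‖c‖ (Eventually.of_forall fun ω => ?_)
    simp
  have hpow : ∀ m n : ℕ, n ≤ m → (fun ω : ℂ => ‖ω‖ ^ m) =O[𝓝 0] fun ω => ‖ω‖ ^ n := by
    intro m n hmn
    refine IsBigO.of_bound 1 ?_
    filter_upwards [Metric.ball_mem_nhds (0 : ℂ) one_pos] with ω hω
    have hω1 : ‖ω‖ ≤ 1 := by
      have : ‖ω‖ < 1 := by simpa using hω
      exact this.le
    rw [norm_pow, norm_pow, norm_norm, one_mul]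
    exact pow_le_pow_of_le_one (norm_nonneg _) hω1 hmn
  -- the exponent
  set u : ℂ → ℂ := fun ω => -π * (‖ω‖ : ℂ) ^ 2 / 2 + π * ζ * conj ω with hu
  have hu1 : u =O[𝓝 0] fun ω => ‖ω‖ := by
    have h1 : (fun ω : ℂ => (-π / 2 : ℂ) * (‖ω‖ : ℂ) ^ 2) =O[𝓝 0] fun ω => ‖ω‖ := by
      have := (o2 (-π / 2)).trans (hpow 2 1 (by norm_num))
      simpa using this
    have h2 := h1.add (o1' (π * ζ))
    refine h2.congr_left fun ω => ?_
    simp only [hu]
    ring
  have hu0 : Tendsto u (𝓝 0) (𝓝 0) := by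
    have : Continuous u := by
      simp only [hu]
      have := Complex.continuous_conj
      fun_prop
    have h := this.tendsto 0
    simpa [hu] using h
  have he : (fun ω => cexp (u ω) - (1 + u ω + u ω ^ 2 / 2)) =O[𝓝 0] fun ω => ‖ω‖ ^ 3 := by
    have h1 := exp_expansion.comp_tendsto hu0
    have h2 : ((fun x : ℂ => ‖x‖ ^ 3) ∘ u) =O[𝓝 0] fun ω => ‖ω‖ ^ 3 := by
      have := hu1.norm_left.pow 3
      exact this
    exact h1.trans h2
  -- second order polynomial of the exponential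
  have he2 : (fun ω => cexp (u ω) - (1 + π * ζ * conj ω +
      ((-π / 2 : ℂ) * (‖ω‖ : ℂ) ^ 2 + (π * ζ) ^ 2 / 2 * (conj ω) ^ 2))) =O[𝓝 0]
      fun ω => ‖ω‖ ^ 3 := by
    have h1 : (fun ω : ℂ => (-π / 2 : ℂ) * (‖ω‖ : ℂ) ^ 2 * (π * ζ * conj ω)) =O[𝓝 0]
        fun ω => ‖ω‖ ^ 3 := by
      have := (o2 (-π / 2)).mul (o1' (π * ζ))
      refine this.congr_right fun ω => ?_
      ring
    have h2 : (fun ω : ℂ => (π ^ 2 / 8 : ℂ) * (‖ω‖ : ℂ) ^ 2 * (1 * (‖ω‖ : ℂ) ^ 2)) =O[𝓝 0]
        fun ω => ‖ω‖ ^ 3 := by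
      have := (o2 (π ^ 2 / 8)).mul (o2 1)
      have h3 : (fun ω : ℂ => ‖ω‖ ^ 2 * ‖ω‖ ^ 2) =O[𝓝 0] fun ω => ‖ω‖ ^ 3 := by
        refine (hpow 4 3 (by norm_num)).congr_left fun ω => ?_
        ring
      exact this.trans h3
    have h4 := he.add (h1.add h2)
    refine h4.congr_left fun ω => ?_
    simp only [hu]
    ring
  -- abbreviations for the two polynomials
  set e₂ : ℂ → ℂ := fun ω => 1 + π * ζ * conj ω +
      ((-π / 2 : ℂ) * (‖ω‖ : ℂ) ^ 2 + (π * ζ) ^ 2 / 2 * (conj ω) ^ 2) with he₂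
  set g₂ : ℂ → ℂ := fun ω => G ζ - deriv G ζ * ω + α * ω ^ 2 with hg₂
  have hGbdd : (fun ω : ℂ => G (ζ - ω)) =O[𝓝 0] fun _ => (1 : ℝ) := by
    have : Continuous fun ω : ℂ => G (ζ - ω) := hG.continuous.comp (by fun_prop)
    exact (this.tendsto 0).isBigO_one ℝ
  have he₂bdd : e₂ =O[𝓝 0] fun _ => (1 : ℝ) := by
    have : Continuous e₂ := by
      simp only [he₂]
      have := Complex.continuous_conj
      fun_prop
    exact (this.tendsto 0).isBigO_one ℝ
  have t1 : (fun ω => (cexp (u ω) - e₂ ω) * G (ζ - ω)) =O[𝓝 0] fun ω => ‖ω‖ ^ 3 := by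
    have := he2.mul hGbdd
    simpa using this
  have t2 : (fun ω => e₂ ω * (G (ζ - ω) - g₂ ω)) =O[𝓝 0] fun ω => ‖ω‖ ^ 3 := by
    have := he₂bdd.mul hα
    simpa using this
  -- the higher order terms of the product of polynomials
  have t3 : (fun ω : ℂ => (π * ζ * conj ω) * (α * ω ^ 2)) =O[𝓝 0] fun ω => ‖ω‖ ^ 3 := by
    have := (o1' (π * ζ)).mul (o2' α)
    refine this.congr_right fun ω => ?_
    ring
  have hM : (fun ω : ℂ => (-π / 2 : ℂ) * (‖ω‖ : ℂ) ^ 2 + (π * ζ) ^ 2 / 2 * (conj ω) ^ 2)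
      =O[𝓝 0] fun ω => ‖ω‖ ^ 2 := (o2 _).add (o2'' _)
  have t4 : (fun ω : ℂ => ((-π / 2 : ℂ) * (‖ω‖ : ℂ) ^ 2 + (π * ζ) ^ 2 / 2 * (conj ω) ^ 2) *
      (deriv G ζ * ω)) =O[𝓝 0] fun ω => ‖ω‖ ^ 3 := by
    have := hM.mul (o1 (deriv G ζ))
    refine this.congr_right fun ω => ?_
    ring
  have t5 : (fun ω : ℂ => ((-π / 2 : ℂ) * (‖ω‖ : ℂ) ^ 2 + (π * ζ) ^ 2 / 2 * (conj ω) ^ 2) *
      (α * ω ^ 2)) =O[𝓝 0] fun ω => ‖ω‖ ^ 3 := by
    have := hM.mul (o2' α)
    have h3 : (fun ω : ℂ => ‖ω‖ ^ 2 * ‖ω‖ ^ 2) =O[𝓝 0] fun ω => ‖ω‖ ^ 3 := by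
      refine (hpow 4 3 (by norm_num)).congr_left fun ω => ?_
      ring
    exact this.trans h3
  have hall := ((t1.add t2).add (t3.sub t4)).add t5
  refine hall.congr_left fun ω => ?_
  have hωω : (‖ω‖ : ℂ) ^ 2 = conj ω * ω := by
    rw [mul_comm, Complex.mul_conj, Complex.normSq_eq_norm_sq]
    push_cast
    ring
  simp only [hu, he₂, hg₂]
  rw [hωω]
  ring


lemma integral_ball_neg (F : ℂ → ℂ) (R : ℝ) :
    ∫ ω in Metric.ball (0 : ℂ) R, F (-ω) = ∫ ω in Metric.ball (0 : ℂ) R, F ω := by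
  have h := (Measure.measurePreserving_neg (volume : Measure ℂ)).setIntegral_preimage_emb
    (MeasurableEquiv.neg ℂ).measurableEmbedding F (Metric.ball 0 R)
  have h2 : (Neg.neg : ℂ → ℂ) ⁻¹' Metric.ball (0 : ℂ) R = Metric.ball (0 : ℂ) R := by
    ext ω; simp
  rw [← h, h2]

lemma integral_ball_rot (F : ℂ → ℂ) (R : ℝ) :
    ∫ ω in Metric.ball (0 : ℂ) R, F (I * ω) = ∫ ω in Metric.ball (0 : ℂ) R, F ω := by
  have hI : ∃ c : Circle, (c : ℂ) = I := ⟨⟨I, by simp [Submonoid.unitSphere]⟩, rfl⟩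
  obtain ⟨c, hc⟩ := hI
  have h := (rotation c).measurePreserving.setIntegral_preimage_emb
    (rotation c).toHomeomorph.toMeasurableEquiv.measurableEmbedding F (Metric.ball 0 R)
  have h2 : (rotation c : ℂ → ℂ) ⁻¹' Metric.ball (0 : ℂ) R = Metric.ball (0 : ℂ) R := by
    ext ω
    simp only [Set.mem_preimage, Metric.mem_ball, dist_zero_right, LinearIsometryEquiv.norm_map]
  rw [← h, h2]
  refine integral_congr_ae (Eventually.of_forall fun ω => ?_)
  simp [rotation_apply, hc]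

lemma integral_ball_sq (R : ℝ) : ∫ ω in Metric.ball (0 : ℂ) R, ω ^ 2 = 0 := by
  have h := integral_ball_rot (fun ω => ω ^ 2) R
  simp only [mul_pow, Complex.I_sq, neg_mul, one_mul] at h
  rw [integral_neg] at h
  have h2 : (2 : ℂ) * ∫ ω in Metric.ball (0 : ℂ) R, ω ^ 2 = 0 := by
    rw [two_mul]
    nth_rewrite 1 [← h]
    ring
  simpa using h2

lemma integral_ball_conj_sq (R : ℝ) : ∫ ω in Metric.ball (0 : ℂ) R, (conj ω) ^ 2 = 0 := by
  have h : ∫ ω in Metric.ball (0 : ℂ) R, (conj ω) ^ 2 =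
      conj (∫ ω in Metric.ball (0 : ℂ) R, ω ^ 2) := by
    rw [← integral_conj]
    simp
  rw [h, integral_ball_sq, map_zero]

/-- second moment of the disc -/
def mom (R : ℝ) : ℝ := ∫ ω in Metric.ball (0 : ℂ) R, ‖ω‖ ^ 2

lemma integrableOn_ball {E : Type*} [NormedAddCommGroup E] {F : ℂ → E} (hF : Continuous F)
    (R : ℝ) : IntegrableOn F (Metric.ball (0 : ℂ) R) volume :=
  (hF.continuousOn.integrableOn_compact (isCompact_closedBall (0 : ℂ) R)).mono_set
    Metric.ball_subset_closedBall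

lemma mom_pos {R : ℝ} (hR : 0 < R) : 0 < mom R := by
  unfold mom
  rw [setIntegral_pos_iff_support_of_nonneg_ae]
  · have h1 : (Function.support fun ω : ℂ => ‖ω‖ ^ 2) ∩ Metric.ball (0 : ℂ) R =
        Metric.ball (0 : ℂ) R \ {0} := by
      ext ω
      simp only [Set.mem_inter_iff, Function.mem_support, ne_eq, Set.mem_sdiff,
        Set.mem_singleton_iff, pow_eq_zero_iff, norm_eq_zero, OfNat.ofNat_ne_zero,
        not_false_eq_true]
      tauto
    rw [h1, measure_sdiff_null (measure_singleton _)]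
    exact Metric.measure_ball_pos volume 0 hR
  · exact Eventually.of_forall fun ω => by positivity
  · exact integrableOn_ball (by fun_prop) R

/-- The coefficient `q` at scale `R`. -/
def qcoef (A : ℂ → ℂ) (S R : ℝ) : ℂ := (∫ ω in Metric.ball (0 : ℂ) R, A ω * ω) / (S * mom R)

/-- The coefficient `γ` at scale `R`. -/
def gcoef (A : ℂ → ℂ) (S R : ℝ) (C : ℂ) : ℂ :=
  ((∫ ω in Metric.ball (0 : ℂ) R, A ω) - C) / (S * mom R) - π / 2

lemma integral_A_conj (A : ℂ → ℂ) (hA : ∀ ω, A (-ω) = conj (A ω)) (R : ℝ) :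
    ∫ ω in Metric.ball (0 : ℂ) R, A ω * conj ω =
      -conj (∫ ω in Metric.ball (0 : ℂ) R, A ω * ω) := by
  rw [← integral_conj, ← integral_ball_neg, ← integral_neg]
  refine integral_congr_ae (Eventually.of_forall fun ω => ?_)
  simp only [hA, map_neg, map_mul]
  ring

/-- Main estimate: at small scales the two coefficients satisfy the limit equation up to a small
error. -/
lemma main_estimate {A : ℂ → ℂ} (hAc : Continuous A) (hA : ∀ ω, A (-ω) = conj (A ω)) {S : ℝ}
    (hS : 0 < S) (hA0 : A 0 = S) (Ψ : ℂ → ℂ) (hΨ : Continuous Ψ) (G₀ G₁ κ α β ζ : ℂ)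
    (hκ : κ = -(π / 2 * G₀ + π * ζ * G₁))
    (hexp : (fun ω : ℂ => Ψ ω - (G₀ + (π * ζ * G₀ * conj ω - G₁ * ω) +
        (κ * (‖ω‖ : ℂ) ^ 2 + α * ω ^ 2 + β * (conj ω) ^ 2))) =O[𝓝 0] fun ω => ‖ω‖ ^ 3)
    {ε : ℝ} (hε : 0 < ε) :
    ∃ δ > 0, ∀ R, 0 < R → R < δ → ∀ C : ℂ,
      C * G₀ = (∫ ω in Metric.ball (0 : ℂ) R, A ω * Ψ ω) →
      ‖gcoef A S R C * G₀ - π * ζ * conj (qcoef A S R) * G₀ - qcoef A S R * G₁ -
        π * ζ * G₁‖ ≤ ε := by
  obtain ⟨K, hKpos, hK⟩ := hexp.exists_pos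
  rw [IsBigOWith, Metric.eventually_nhds_iff_ball] at hK
  obtain ⟨δ₁, hδ₁, hK⟩ := hK
  -- size of the quadratic part
  set L : ℝ := ‖κ‖ + ‖α‖ + ‖β‖ with hL
  have hLnn : 0 ≤ L := by positivity
  -- continuity of `A` at zero
  set η : ℝ := ε * S / (2 * (L + 1)) with hη
  have hηpos : 0 < η := by positivity
  obtain ⟨δ₂, hδ₂, hA2⟩ := Metric.continuousAt_iff.1 (hAc.continuousAt (x := 0)) η hηpos
  set δ₃ : ℝ := ε * S / (2 * (K * (S + η) + 1)) with hδ₃
  have hδ₃pos : 0 < δ₃ := by positivity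
  refine ⟨min δ₁ (min δ₂ δ₃), lt_min hδ₁ (lt_min hδ₂ hδ₃pos), ?_⟩
  intro R hR hRδ C hC
  have hR1 : R < δ₁ := hRδ.trans_le (min_le_left _ _)
  have hR2 : R < δ₂ := hRδ.trans_le ((min_le_right _ _).trans (min_le_left _ _))
  have hR3 : R < δ₃ := hRδ.trans_le ((min_le_right _ _).trans (min_le_right _ _))
  have hm : 0 < mom R := mom_pos hR
  have hcc : Continuous (fun ω : ℂ => conj ω) := Complex.continuous_conj
  have hAη : ∀ ω ∈ Metric.ball (0 : ℂ) R, ‖A ω - S‖ ≤ η := by
    intro ω hω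
    have h1 : dist ω 0 < δ₂ := by
      have : dist ω 0 < R := hω
      linarith
    have h2 := hA2 h1
    rw [hA0, dist_eq_norm] at h2
    exact h2.le
  have hAbd : ∀ ω ∈ Metric.ball (0 : ℂ) R, ‖A ω‖ ≤ S + η := by
    intro ω hω
    have h1 := hAη ω hω
    have h2 : ‖A ω‖ ≤ ‖A ω - S‖ + ‖(S : ℂ)‖ := by
      simpa using norm_add_le (A ω - S) (S : ℂ)
    rw [Complex.norm_real, Real.norm_of_nonneg hS.le] at h2
    linarith
  -- the two error terms
  let Q : ℂ → ℂ := fun ω => κ * (‖ω‖ : ℂ) ^ 2 + α * ω ^ 2 + β * (conj ω) ^ 2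
  have hQc : Continuous Q := by simp only [Q]; fun_prop
  let P : ℂ → ℂ := fun ω => G₀ + (π * ζ * G₀ * conj ω - G₁ * ω) + Q ω
  have hPc : Continuous P := by simp only [P]; fun_prop
  have hQle : ∀ ω, ‖Q ω‖ ≤ L * ‖ω‖ ^ 2 := by
    intro ω
    simp only [Q, hL]
    refine (norm_add_le _ _).trans ?_
    refine (add_le_add_left (norm_add_le _ _) _).trans ?_
    simp only [norm_mul, norm_pow, RCLike.norm_conj, Complex.norm_real, norm_norm]
    apply le_of_eq
    ring
  have herr1 : ‖∫ ω in Metric.ball (0 : ℂ) R, A ω * (Ψ ω - P ω)‖ ≤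
      (S + η) * K * R * mom R := by
    have h1 : ∀ ω ∈ Metric.ball (0 : ℂ) R, ‖A ω * (Ψ ω - P ω)‖ ≤ (S + η) * K * R * ‖ω‖ ^ 2 := by
      intro ω hω
      have hωR : ‖ω‖ ≤ R := by
        have : dist ω 0 < R := hω
        simpa using this.le
      have h2 := hK ω (Metric.ball_subset_ball hR1.le hω)
      rw [norm_pow, norm_norm] at h2
      have h3 : Ψ ω - P ω = Ψ ω - (G₀ + (π * ζ * G₀ * conj ω - G₁ * ω) +
        (κ * (‖ω‖ : ℂ) ^ 2 + α * ω ^ 2 + β * (conj ω) ^ 2)) := rfl
      rw [norm_mul, h3]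
      calc ‖A ω‖ * _ ≤ (S + η) * (K * ‖ω‖ ^ 3) := by
            gcongr
            exact hAbd ω hω
        _ = (S + η) * K * ‖ω‖ * ‖ω‖ ^ 2 := by ring
        _ ≤ (S + η) * K * R * ‖ω‖ ^ 2 := by gcongr
    calc ‖∫ ω in Metric.ball (0 : ℂ) R, A ω * (Ψ ω - P ω)‖
        ≤ ∫ ω in Metric.ball (0 : ℂ) R, ‖A ω * (Ψ ω - P ω)‖ := norm_integral_le_integral_norm _
      _ ≤ ∫ ω in Metric.ball (0 : ℂ) R, (S + η) * K * R * ‖ω‖ ^ 2 := by
          refine setIntegral_mono_on ?_ ?_ Metric.isOpen_ball.measurableSet h1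
          · exact integrableOn_ball (by fun_prop) R
          · exact integrableOn_ball (by fun_prop) R
      _ = (S + η) * K * R * mom R := by rw [integral_const_mul]; rfl
  have herr2 : ‖∫ ω in Metric.ball (0 : ℂ) R, (A ω - S) * Q ω‖ ≤ η * L * mom R := by
    have h1 : ∀ ω ∈ Metric.ball (0 : ℂ) R, ‖(A ω - S) * Q ω‖ ≤ η * L * ‖ω‖ ^ 2 := by
      intro ω hω
      rw [norm_mul]
      calc ‖A ω - S‖ * ‖Q ω‖ ≤ η * (L * ‖ω‖ ^ 2) := by
            gcongr
            · exact hAη ω hω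
            · exact hQle ω
        _ = η * L * ‖ω‖ ^ 2 := by ring
    calc ‖∫ ω in Metric.ball (0 : ℂ) R, (A ω - S) * Q ω‖
        ≤ ∫ ω in Metric.ball (0 : ℂ) R, ‖(A ω - S) * Q ω‖ := norm_integral_le_integral_norm _
      _ ≤ ∫ ω in Metric.ball (0 : ℂ) R, η * L * ‖ω‖ ^ 2 := by
          refine setIntegral_mono_on ?_ ?_ Metric.isOpen_ball.measurableSet h1
          · exact integrableOn_ball (by fun_prop) R
          · exact integrableOn_ball (by fun_prop) R
      _ = η * L * mom R := by rw [integral_const_mul]; rfl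
  -- exact computation
  have hmomC : ∫ ω in Metric.ball (0 : ℂ) R, ((‖ω‖ : ℂ)) ^ 2 = (mom R : ℂ) := by
    unfold mom
    rw [← integral_complex_ofReal]
    refine integral_congr_ae (Eventually.of_forall fun ω => ?_)
    simp
  have hQint : ∫ ω in Metric.ball (0 : ℂ) R, Q ω = κ * mom R := by
    simp only [Q]
    rw [integral_add, integral_add, integral_const_mul, integral_const_mul, integral_const_mul,
      hmomC, integral_ball_sq, integral_ball_conj_sq]
    · ring
    · exact integrableOn_ball (by fun_prop) R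
    · exact integrableOn_ball (by fun_prop) R
    · exact integrableOn_ball (by fun_prop) R
    · exact integrableOn_ball (by fun_prop) R
  have hmain : (∫ ω in Metric.ball (0 : ℂ) R, A ω * Ψ ω) =
      G₀ * (∫ ω in Metric.ball (0 : ℂ) R, A ω) +
      π * ζ * G₀ * (∫ ω in Metric.ball (0 : ℂ) R, A ω * conj ω) -
      G₁ * (∫ ω in Metric.ball (0 : ℂ) R, A ω * ω) +
      S * (κ * mom R) +
      (∫ ω in Metric.ball (0 : ℂ) R, A ω * (Ψ ω - P ω)) +
      ∫ ω in Metric.ball (0 : ℂ) R, (A ω - S) * Q ω := by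
    rw [← hQint, ← integral_const_mul, ← integral_const_mul, ← integral_const_mul,
      ← integral_const_mul, ← integral_add, ← integral_sub, ← integral_add, ← integral_add,
      ← integral_add]
    · refine integral_congr_ae (Eventually.of_forall fun ω => ?_)
      simp only [P]
      ring
    all_goals exact integrableOn_ball (by fun_prop) R
  rw [integral_A_conj A hA R] at hmain
  set c : ℂ := ∫ ω in Metric.ball (0 : ℂ) R, A ω * ω with hc
  set a₀ : ℂ := ∫ ω in Metric.ball (0 : ℂ) R, A ω with ha₀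
  set E₁ : ℂ := ∫ ω in Metric.ball (0 : ℂ) R, A ω * (Ψ ω - P ω) with hE₁
  set E₂ : ℂ := ∫ ω in Metric.ball (0 : ℂ) R, (A ω - S) * Q ω with hE₂
  have hSm : (S : ℂ) * (mom R : ℂ) ≠ 0 := by
    rw [← Complex.ofReal_mul, Complex.ofReal_ne_zero]
    positivity
  have hSm' : conj ((S : ℂ) * (mom R : ℂ)) = (S : ℂ) * (mom R : ℂ) := by
    rw [map_mul, Complex.conj_ofReal, Complex.conj_ofReal]
  have hfinal : gcoef A S R C * G₀ - π * ζ * conj (qcoef A S R) * G₀ - qcoef A S R * G₁ -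
        π * ζ * G₁ = -(E₁ + E₂) / (S * mom R) := by
    unfold gcoef qcoef
    rw [← hc, ← ha₀, map_div₀, hSm']
    have h1 : C * G₀ = G₀ * a₀ + π * ζ * G₀ * -conj c - G₁ * c + S * (κ * mom R) + E₁ + E₂ := by
      rw [hC, hmain]
    rw [hκ] at h1
    have hS0 : (S : ℂ) ≠ 0 := left_ne_zero_of_mul hSm
    have hm0 : (mom R : ℂ) ≠ 0 := right_ne_zero_of_mul hSm
    field_simp
    linear_combination (-2) * h1
  rw [hfinal, norm_div, norm_neg]
  have hnSm : ‖(S : ℂ) * (mom R : ℂ)‖ = S * mom R := by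
    rw [norm_mul, Complex.norm_real, Complex.norm_real, Real.norm_of_nonneg hS.le,
      Real.norm_of_nonneg hm.le]
  rw [hnSm, div_le_iff₀ (by positivity)]
  refine (norm_add_le _ _).trans ?_
  have h1 : (S + η) * K * R ≤ ε * S / 2 := by
    have h2 : (S + η) * K * R ≤ (S + η) * K * δ₃ := by gcongr
    refine h2.trans ?_
    rw [hδ₃, mul_div_assoc', div_le_div_iff₀ (by positivity) (by positivity)]
    nlinarith [mul_pos hε hS, mul_pos hKpos (add_pos hS hηpos)]
  have h2 : η * L ≤ ε * S / 2 := by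
    rw [hη, div_mul_eq_mul_div, div_le_div_iff₀ (by positivity) (by positivity)]
    nlinarith [mul_pos hε hS]
  calc ‖E₁‖ + ‖E₂‖ ≤ (S + η) * K * R * mom R + η * L * mom R := add_le_add herr1 herr2
    _ = ((S + η) * K * R + η * L) * mom R := by ring
    _ ≤ (ε * S / 2 + ε * S / 2) * mom R := by gcongr
    _ = ε * (S * mom R) := by ring


/-- Passing to the limit in the approximate equations: the set of functions obtained from the
coefficients is a finite dimensional real subspace, hence closed. -/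
lemma limit_equation (G G' : ℂ → ℂ) (q γ : ℕ → ℂ)
    (h : ∀ ζ : ℂ, Tendsto (fun k => γ k * G ζ - π * ζ * conj (q k) * G ζ - q k * G' ζ) atTop
      (𝓝 (π * ζ * G' ζ))) :
    ∃ q₀ γ₀ : ℂ, ∀ ζ : ℂ,
      γ₀ * G ζ - π * ζ * conj q₀ * G ζ - q₀ * G' ζ = π * ζ * G' ζ := by
  let Φ : (ℂ × ℂ) →ₗ[ℝ] (ℂ → ℂ) :=
    { toFun := fun p ζ => p.2 * G ζ - π * ζ * conj p.1 * G ζ - p.1 * G' ζ
      map_add' := by
        intro p p'
        funext ζ
        simp only [Prod.fst_add, Prod.snd_add, map_add, Pi.add_apply]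
        ring
      map_smul' := by
        intro r p
        funext ζ
        simp only [Prod.smul_fst, Prod.smul_snd, RingHom.id_apply, Pi.smul_apply,
          Complex.real_smul, map_mul, Complex.conj_ofReal]
        ring }
  have hclosed : IsClosed ((LinearMap.range Φ : Submodule ℝ (ℂ → ℂ)) : Set (ℂ → ℂ)) :=
    (LinearMap.range Φ).closed_of_finiteDimensional
  have hlim : Tendsto (fun k => Φ (q k, γ k)) atTop (𝓝 (fun ζ => π * ζ * G' ζ)) := by
    rw [tendsto_pi_nhds]
    intro ζ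
    exact h ζ
  have hmem := hclosed.mem_of_tendsto hlim (Eventually.of_forall fun k => ⟨(q k, γ k), rfl⟩)
  obtain ⟨⟨q₀, γ₀⟩, hp⟩ := hmem
  exact ⟨q₀, γ₀, fun ζ => congrFun hp ζ⟩

/-- An entire function with `s F'(s) = lam F(s)` which is not identically zero is a monomial. -/
lemma euler_ode {F : ℂ → ℂ} (hF : Differentiable ℂ F) (lam : ℂ)
    (hode : ∀ s, s * deriv F s = lam * F s) (hne : ∃ s, F s ≠ 0) :
    ∃ (n : ℕ) (c : ℂ), c ≠ 0 ∧ ∀ s, F s = c * s ^ n := by
  have hdiff : ∀ k : ℕ, Differentiable ℂ (iteratedDeriv k F) := by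
    intro k
    have : ContDiff ℂ ⊤ F := hF.contDiff
    exact this.differentiable_iteratedDeriv k (by
      exact_mod_cast (WithTop.coe_lt_top (k : ℕ∞)))
  have hk : ∀ k : ℕ, ∀ s, s * iteratedDeriv (k + 1) F s + k * iteratedDeriv k F s =
      lam * iteratedDeriv k F s := by
    intro k
    induction k with
    | zero =>
      intro s
      rw [iteratedDeriv_one, iteratedDeriv_zero]
      simp only [Nat.cast_zero, zero_mul, add_zero]
      exact hode s
    | succ k ih =>
      intro s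
      have h1 : HasDerivAt (fun s => s * iteratedDeriv (k + 1) F s + k * iteratedDeriv k F s)
          (1 * iteratedDeriv (k + 1) F s + s * iteratedDeriv (k + 2) F s +
            k * iteratedDeriv (k + 1) F s) s := by
        have e1 : HasDerivAt (iteratedDeriv (k + 1) F) (iteratedDeriv (k + 2) F s) s := by
          have := (hdiff (k + 1) s).hasDerivAt
          rwa [← iteratedDeriv_succ] at this
        have e2 : HasDerivAt (iteratedDeriv k F) (iteratedDeriv (k + 1) F s) s := by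
          have := (hdiff k s).hasDerivAt
          rwa [← iteratedDeriv_succ] at this
        exact ((hasDerivAt_id s).mul e1).add (e2.const_mul _)
      have h2 : HasDerivAt (fun s => lam * iteratedDeriv k F s)
          (lam * iteratedDeriv (k + 1) F s) s := by
        have e2 : HasDerivAt (iteratedDeriv k F) (iteratedDeriv (k + 1) F s) s := by
          have := (hdiff k s).hasDerivAt
          rwa [← iteratedDeriv_succ] at this
        exact e2.const_mul _
      have h3 : (fun s => s * iteratedDeriv (k + 1) F s + k * iteratedDeriv k F s) =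
          fun s => lam * iteratedDeriv k F s := funext ih
      rw [h3] at h1
      have h4 := h1.unique h2
      push_cast
      linear_combination h4
  have hk0 : ∀ k : ℕ, ((k : ℂ) - lam) * iteratedDeriv k F 0 = 0 := by
    intro k
    have := hk k 0
    linear_combination this
  have htaylor : ∀ s, HasSum (fun k : ℕ => ((k.factorial : ℂ))⁻¹ • (s - 0) ^ k •
      iteratedDeriv k F 0) (F s) := fun s => Complex.hasSum_taylorSeries_of_entire hF 0 s
  obtain ⟨n, hn⟩ : ∃ n : ℕ, iteratedDeriv n F 0 ≠ 0 := by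
    by_contra hcon
    push Not at hcon
    obtain ⟨s, hs⟩ := hne
    have h1 := htaylor s
    simp only [hcon, smul_zero] at h1
    exact hs (h1.unique hasSum_zero)
  have hlam : lam = n := by
    have := hk0 n
    rcases mul_eq_zero.1 this with h | h
    · exact (sub_eq_zero.1 h).symm
    · exact absurd h hn
  have hzero : ∀ k : ℕ, k ≠ n → iteratedDeriv k F 0 = 0 := by
    intro k hkn
    have := hk0 k
    rcases mul_eq_zero.1 this with h | h
    · rw [hlam, sub_eq_zero] at h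
      exact absurd (by exact_mod_cast h) hkn
    · exact h
  refine ⟨n, ((n.factorial : ℂ))⁻¹ * iteratedDeriv n F 0, ?_, ?_⟩
  · refine mul_ne_zero (inv_ne_zero ?_) hn
    exact_mod_cast n.factorial_ne_zero
  · intro s
    have h1 := htaylor s
    have h2 : HasSum (fun k : ℕ => ((k.factorial : ℂ))⁻¹ • (s - 0) ^ k • iteratedDeriv k F 0)
        (((n.factorial : ℂ))⁻¹ • (s - 0) ^ n • iteratedDeriv n F 0) := by
      apply hasSum_single
      intro k hkn
      rw [hzero k hkn, smul_zero, smul_zero]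
    rw [h1.unique h2]
    simp only [sub_zero, smul_eq_mul]
    ring

/-- Solution of the limit equation. -/
lemma solve_equation {G : ℂ → ℂ} (hG : Differentiable ℂ G) (hne : ∃ s, G s ≠ 0) (q γ : ℂ)
    (h : ∀ ζ : ℂ, γ * G ζ - π * ζ * conj q * G ζ - q * deriv G ζ = π * ζ * deriv G ζ) :
    ∃ (ζ₀ : ℂ) (n : ℕ) (c : ℂ), c ≠ 0 ∧
      ∀ ζ, G ζ = c * (ζ - ζ₀) ^ n * cexp (π * conj ζ₀ * (ζ - ζ₀)) := by
  have hπ : (π : ℂ) ≠ 0 := Complex.ofReal_ne_zero.2 Real.pi_ne_zero
  set ζ₀ : ℂ := -q / π with hζ₀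
  have hq : q = -(π * ζ₀) := by rw [hζ₀]; field_simp
  have hcq : conj q = -(π * conj ζ₀) := by
    rw [hq, map_neg, map_mul, Complex.conj_ofReal]
  let F : ℂ → ℂ := fun s => G (s + ζ₀) * cexp (-(π * conj ζ₀ * s))
  have hderiv : ∀ s, HasDerivAt F (deriv G (s + ζ₀) * cexp (-(π * conj ζ₀ * s)) +
      G (s + ζ₀) * (cexp (-(π * conj ζ₀ * s)) * (-(π * conj ζ₀)))) s := by
    intro s
    have h1 : HasDerivAt (fun s => G (s + ζ₀)) (deriv G (s + ζ₀)) s := by
      have := (hG (s + ζ₀)).hasDerivAt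
      exact this.comp_add_const s ζ₀
    have h2 : HasDerivAt (fun s : ℂ => -(π * conj ζ₀ * s)) (-(π * conj ζ₀)) s := by
      have h3 := (hasDerivAt_id s).const_mul (-(π * conj ζ₀))
      have e : (fun s : ℂ => -(π * conj ζ₀ * s)) = fun s => -(π * conj ζ₀) * s := by
        funext s
        ring
      rw [e]
      simpa using h3
    exact h1.mul h2.cexp
  have hF : Differentiable ℂ F := fun s => (hderiv s).differentiableAt
  have hode : ∀ s, s * deriv F s = (γ / π + π * ζ₀ * conj ζ₀) * F s := by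
    intro s
    rw [(hderiv s).deriv]
    have h1 := h (s + ζ₀)
    rw [hcq] at h1
    have h2 : (π : ℂ) * (s * deriv G (s + ζ₀)) =
        (γ + π * (s + ζ₀) * (π * conj ζ₀)) * G (s + ζ₀) := by
      rw [hq] at h1
      linear_combination -h1
    have h3 : s * deriv G (s + ζ₀) = (γ / π + (s + ζ₀) * (π * conj ζ₀)) * G (s + ζ₀) := by
      apply mul_left_cancel₀ hπ
      rw [h2]
      field_simp
    simp only [F]
    linear_combination (cexp (-(π * conj ζ₀ * s))) * h3
  have hFne : ∃ s, F s ≠ 0 := by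
    obtain ⟨s, hs⟩ := hne
    refine ⟨s - ζ₀, ?_⟩
    simp only [F, sub_add_cancel]
    exact mul_ne_zero hs (Complex.exp_ne_zero _)
  obtain ⟨n, c, hc, hFc⟩ := euler_ode hF _ hode hFne
  refine ⟨ζ₀, n, c, hc, fun ζ => ?_⟩
  have h1 := hFc (ζ - ζ₀)
  simp only [F, sub_add_cancel] at h1
  have h2 : cexp (-(π * conj ζ₀ * (ζ - ζ₀))) * cexp (π * conj ζ₀ * (ζ - ζ₀)) = 1 := by
    rw [← Complex.exp_add, neg_add_cancel, Complex.exp_zero]
  calc G ζ = G ζ * (cexp (-(π * conj ζ₀ * (ζ - ζ₀))) * cexp (π * conj ζ₀ * (ζ - ζ₀))) := by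
        rw [h2, mul_one]
    _ = (G ζ * cexp (-(π * conj ζ₀ * (ζ - ζ₀)))) * cexp (π * conj ζ₀ * (ζ - ζ₀)) := by ring
    _ = _ := by rw [h1]


/-- Injectivity of the Fourier transform on `L¹(ℝ)`. -/
lemma ae_zero_of_fourier_zero {U : ℝ → ℂ} (hU : Integrable U volume) (h : ∀ η : ℝ, 𝓕 U η = 0) :
    U =ᵐ[volume] 0 := by
  have key := ae_eq_zero_of_integral_contDiff_smul_eq_zero (μ := (volume : Measure ℝ)) (f := U)
    hU.locallyIntegrable ?_
  · exact key
  intro f hf hfc
  -- `f` as a Schwartz function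
  have hfc' : HasCompactSupport (fun x => ((f x : ℝ) : ℂ)) := by
    exact hfc.comp_left (g := fun x : ℝ => (x : ℂ)) Complex.ofReal_zero
  have hf' : ContDiff ℝ ((⊤ : ℕ∞) : WithTop ℕ∞) (fun x => ((f x : ℝ) : ℂ)) := Complex.ofRealCLM.contDiff.comp hf
  let F : 𝓢(ℝ, ℂ) := hfc'.toSchwartzMap hf'
  let ψ : 𝓢(ℝ, ℂ) := 𝓕⁻ F
  have hψ : 𝓕 ψ = F := FourierTransform.fourier_fourierInv_eq F
  have h1 : ∫ x, (𝓕 (ψ : ℝ → ℂ) x) • U x = ∫ x, ψ x • 𝓕 U x := by
    simpa using! (VectorFourier.integral_fourierIntegral_smul_eq_flip (L := innerₗ ℝ)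
      Real.continuous_fourierChar continuous_inner ψ.integrable hU)
  have h2 : ∀ x, 𝓕 (ψ : ℝ → ℂ) x = (f x : ℂ) := by
    intro x
    rw [← SchwartzMap.fourier_coe, hψ]
    rfl
  have h3 : ∫ x, f x • U x = ∫ x, (𝓕 (ψ : ℝ → ℂ) x) • U x := by
    refine integral_congr_ae (Eventually.of_forall fun x => ?_)
    simp only [h2, smul_eq_mul, Complex.real_smul]
  rw [h3, h1]
  simp [h]

/-- Polynomials `P_n` with `(d/dt)^n e^{-2π t²} = P_n(t) e^{-2π t²}`. -/
def hpoly : ℕ → Polynomial ℝ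
  | 0 => 1
  | n + 1 => Polynomial.derivative (hpoly n) - Polynomial.C (4 * π) * Polynomial.X * hpoly n

lemma hasDerivAt_poly_gauss (n : ℕ) (t : ℝ) :
    HasDerivAt (fun t : ℝ => (hpoly n).eval t * Real.exp (-2 * π * t ^ 2))
      ((hpoly (n + 1)).eval t * Real.exp (-2 * π * t ^ 2)) t := by
  have h1 : HasDerivAt (fun t : ℝ => (hpoly n).eval t) ((Polynomial.derivative (hpoly n)).eval t) t :=
    (hpoly n).hasDerivAt t
  have h2 : HasDerivAt (fun t : ℝ => -2 * π * t ^ 2) (-4 * π * t) t := by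
    have := (hasDerivAt_pow 2 t).const_mul (-2 * π)
    refine this.congr_deriv ?_
    push_cast
    ring
  have h3 := h1.mul h2.exp
  refine h3.congr_deriv ?_
  simp only [hpoly, Polynomial.eval_sub, Polynomial.eval_mul, Polynomial.eval_C, Polynomial.eval_X]
  ring

lemma iteratedDeriv_gauss (n : ℕ) :
    iteratedDeriv n (fun s : ℝ => Real.exp (-2 * π * s ^ 2)) =
      fun t => (hpoly n).eval t * Real.exp (-2 * π * t ^ 2) := by
  induction n with
  | zero =>
    funext t
    simp [hpoly]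
  | succ n ih =>
    funext t
    rw [iteratedDeriv_succ, ih]
    exact (hasDerivAt_poly_gauss n t).deriv

lemma iteratedDeriv_cgauss (n : ℕ) :
    iteratedDeriv n (fun s : ℝ => cexp (-π * 2 * s ^ 2)) =
      fun t : ℝ => (((hpoly n).eval t * Real.exp (-2 * π * t ^ 2) : ℝ) : ℂ) := by
  induction n with
  | zero =>
    funext t
    simp only [iteratedDeriv_zero, hpoly, Polynomial.eval_one, one_mul, Complex.ofReal_exp]
    congr 1
    push_cast
    ring
  | succ n ih =>
    funext t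
    rw [iteratedDeriv_succ, ih]
    exact (hasDerivAt_poly_gauss n t).ofReal_comp.deriv

lemma integrable_poly_gauss (P : Polynomial ℝ) {b : ℝ} (hb : 0 < b) :
    Integrable (fun t : ℝ => P.eval t * Real.exp (-b * t ^ 2)) volume := by
  have h1 : (fun t : ℝ => P.eval t * Real.exp (-b * t ^ 2)) = fun t =>
      ∑ i ∈ Finset.range (P.natDegree + 1), P.coeff i * (t ^ i * Real.exp (-b * t ^ 2)) := by
    funext t
    rw [Polynomial.eval_eq_sum_range, Finset.sum_mul]
    refine Finset.sum_congr rfl fun i _ => ?_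
    ring
  rw [h1]
  refine integrable_finsetSum _ fun i _ => Integrable.const_mul ?_ _
  have h2 := integrable_rpow_mul_exp_neg_mul_sq hb (s := (i : ℝ))
    (by have : (0 : ℝ) ≤ i := Nat.cast_nonneg i; linarith)
  simpa only [Real.rpow_natCast] using h2

lemma integrable_iteratedDeriv_cgauss (n : ℕ) :
    Integrable (iteratedDeriv n (fun s : ℝ => cexp (-π * 2 * s ^ 2))) volume := by
  rw [iteratedDeriv_cgauss]
  have := integrable_poly_gauss (hpoly n) (b := 2 * π) (by positivity)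
  refine this.ofReal.congr (Eventually.of_forall fun t => ?_)
  simp only [neg_mul]
  rfl

lemma fourier_iteratedDeriv_cgauss (n : ℕ) (η : ℝ) :
    𝓕 (iteratedDeriv n (fun s : ℝ => cexp (-π * 2 * s ^ 2))) η =
      (2 * π * I * η) ^ n * (1 / (2 : ℂ) ^ (1 / 2 : ℂ) * cexp (-π / 2 * η ^ 2)) := by
  have hsmooth : ContDiff ℝ (n : ℕ∞) (fun s : ℝ => cexp (-π * 2 * s ^ 2)) := by
    have : ContDiff ℝ (n : ℕ∞) (fun s : ℝ => (-π * 2 * s ^ 2 : ℂ)) := by
      have h := Complex.ofRealCLM.contDiff (n := (n : ℕ∞))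
      have h2 : ContDiff ℝ (n : ℕ∞) (fun s : ℝ => (s : ℂ)) := h
      fun_prop
    exact this.cexp
  have h1 := Real.fourier_iteratedDeriv (n := n) (N := (n : ℕ∞)) hsmooth
    (fun m _ => integrable_iteratedDeriv_cgauss m) le_rfl
  rw [h1]
  have h2 := fourier_gaussian_pi (b := 2) (by norm_num)
  rw [h2]
  simp only [smul_eq_mul]


lemma hermiteRaw_eq (n : ℕ) (t : ℝ) :
    hermiteRaw n t = (hpoly n).eval t * Real.exp (-π * t ^ 2) := by
  rw [hermiteRaw, iteratedDeriv_gauss]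
  rw [← mul_assoc, mul_comm (Real.exp _), mul_assoc, ← Real.exp_add]
  congr 2
  ring

lemma integrable_hermiteRaw_sq (n : ℕ) : Integrable (fun t => hermiteRaw n t ^ 2) volume := by
  have h := integrable_poly_gauss ((hpoly n) ^ 2) (b := 2 * π) (by positivity)
  refine h.congr (Eventually.of_forall fun t => ?_)
  simp only [hermiteRaw_eq, Polynomial.eval_pow, mul_pow]
  congr 1
  rw [← Real.exp_nat_mul]
  congr 1
  push_cast
  ring

lemma barg_eq_fourier (g : ℝ → ℂ) (η : ℝ) :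
    𝓕 (fun t : ℝ => cexp (-π * t ^ 2) * conj (g t)) η =
      cexp (-π / 2 * η ^ 2) * Barg g (-(I * η)) := by
  rw [Real.fourier_real_eq_integral_exp_smul, Barg, ← integral_const_mul]
  refine integral_congr_ae (Eventually.of_forall fun t => ?_)
  simp only [ker, smul_eq_mul]
  rw [← mul_assoc, ← mul_assoc, ← Complex.exp_add, ← Complex.exp_add]
  congr 2
  push_cast
  ring_nf
  simp only [Complex.I_sq]
  ring

lemma integrable_gauss_mul_conj {g : ℝ → ℂ} (hg : MemLp g 2 volume) :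
    Integrable (fun t : ℝ => cexp (-π * t ^ 2) * conj (g t)) volume := by
  have h := integrable_mul_conj (ker_memLp 0) hg
  refine h.congr (Eventually.of_forall fun t => ?_)
  simp [ker]

/-- If the Bargmann transform vanishes on the imaginary axis then the function vanishes. -/
lemma ae_zero_of_barg_zero {g : ℝ → ℂ} (hg : MemLp g 2 volume) (h : ∀ ζ, Barg g ζ = 0) :
    g =ᵐ[volume] 0 := by
  have h1 := ae_zero_of_fourier_zero (integrable_gauss_mul_conj hg) (fun η => by
    rw [barg_eq_fourier, h, mul_zero])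
  filter_upwards [h1] with t ht
  simp only [Pi.zero_apply, mul_eq_zero, Complex.exp_ne_zero, false_or, map_eq_zero] at ht
  simpa using ht

/-- Functions whose Bargmann transform is a monomial are multiples of Hermite functions. -/
lemma eq_hermiteRaw_of_barg {g : ℝ → ℂ} (hg : MemLp g 2 volume) (n : ℕ) (c : ℂ) (hc : c ≠ 0)
    (h : ∀ ζ, Barg g ζ = c * ζ ^ n) :
    ∃ d : ℂ, d ≠ 0 ∧ g =ᵐ[volume] fun t => d * hermiteRaw n t := by
  set φ : ℝ → ℂ := iteratedDeriv n (fun s : ℝ => cexp (-π * 2 * s ^ 2)) with hφ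
  have hπ : (-(2 * π) : ℂ) ≠ 0 := by
    rw [neg_ne_zero]
    exact mul_ne_zero two_ne_zero (Complex.ofReal_ne_zero.2 Real.pi_ne_zero)
  have h2 : (1 / (2 : ℂ) ^ (1 / 2 : ℂ)) ≠ 0 := by
    rw [one_div]
    exact inv_ne_zero (by simp [Complex.cpow_eq_zero_iff])
  set d : ℂ := c / ((-(2 * π)) ^ n * (1 / (2 : ℂ) ^ (1 / 2 : ℂ))) with hd
  have hd0 : d ≠ 0 := div_ne_zero hc (mul_ne_zero (pow_ne_zero _ hπ) h2)
  have hdc : d * ((-(2 * π)) ^ n * (1 / (2 : ℂ) ^ (1 / 2 : ℂ))) = c := by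
    rw [hd]
    exact div_mul_cancel₀ _ (mul_ne_zero (pow_ne_zero _ hπ) h2)
  have i1 := integrable_gauss_mul_conj hg
  have i2 : Integrable (fun t => d * φ t) volume :=
    (integrable_iteratedDeriv_cgauss n).const_mul d
  have hzero : ∀ η : ℝ, 𝓕 (fun t : ℝ => cexp (-π * t ^ 2) * conj (g t) - d * φ t) η = 0 := by
    intro η
    have e1 : 𝓕 (fun t : ℝ => cexp (-π * t ^ 2) * conj (g t) - d * φ t) η =
        𝓕 (fun t : ℝ => cexp (-π * t ^ 2) * conj (g t)) η - d * 𝓕 φ η := by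
      rw [Real.fourier_real_eq_integral_exp_smul, Real.fourier_real_eq_integral_exp_smul,
        Real.fourier_real_eq_integral_exp_smul, ← integral_const_mul, ← integral_sub]
      · refine integral_congr_ae (Eventually.of_forall fun t => ?_)
        simp only [smul_eq_mul]
        ring
      · have := (Real.fourierIntegral_convergent_iff (μ := volume) (f := fun t : ℝ =>
          cexp (-π * t ^ 2) * conj (g t)) η).2 i1
        refine this.congr (Eventually.of_forall fun t => ?_)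
        simp only [Circle.smul_def, Real.fourierChar_apply, smul_eq_mul]
        congr 2
        simp only [RCLike.inner_apply, conj_trivial]
        push_cast
        ring
      · have := ((Real.fourierIntegral_convergent_iff (μ := volume) (f := φ) η).2
          (integrable_iteratedDeriv_cgauss n)).const_mul d
        refine this.congr (Eventually.of_forall fun t => ?_)
        simp only [Circle.smul_def, Real.fourierChar_apply, smul_eq_mul]
        congr 3
        simp only [RCLike.inner_apply, conj_trivial]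
        push_cast
        ring
    rw [e1, barg_eq_fourier, h, hφ, fourier_iteratedDeriv_cgauss, ← hdc]
    have e2 : (2 * π * I * η : ℂ) = (-(2 * π)) * (-(I * η)) := by ring
    rw [e2, mul_pow]
    ring
  have hU := ae_zero_of_fourier_zero (i1.sub i2) hzero
  refine ⟨conj d, by simpa using hd0, ?_⟩
  filter_upwards [hU] with t ht
  simp only [Pi.zero_apply] at ht
  have h3 : cexp (-π * t ^ 2) * conj (g t) = d * φ t := sub_eq_zero.1 ht
  have h4 : φ t = cexp (-π * t ^ 2) * (hermiteRaw n t : ℂ) := by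
    rw [hφ, iteratedDeriv_cgauss, hermiteRaw_eq]
    push_cast
    have h5 : cexp (-2 * π * t ^ 2) = cexp (-π * t ^ 2) * cexp (-π * t ^ 2) := by
      rw [← Complex.exp_add]
      congr 1
      ring
    rw [h5]
    ring
  have h6 : conj (g t) = d * (hermiteRaw n t : ℂ) := by
    rw [h4] at h3
    have h7 : cexp (-π * t ^ 2) * conj (g t) = cexp (-π * t ^ 2) * (d * (hermiteRaw n t : ℂ)) := by
      rw [h3]; ring
    exact mul_left_cancel₀ (Complex.exp_ne_zero _) h7
  have h8 := congrArg conj h6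
  rwa [Complex.conj_conj, map_mul, Complex.conj_ofReal] at h8

/-- A nonzero `g ∈ L²(ℝ)` which admits a local reproducing formula on discs of arbitrarily small
radius is a time-frequency shift of a multiple of a Hermite function. -/
theorem result (g : ℝ → ℂ) (hg : MemLp g 2 volume) (hne : ¬ g =ᵐ[volume] 0)
    (h : ∀ δ : ℝ, 0 < δ → ∃ R : ℝ, 0 < R ∧ R < δ ∧ LocalReproducing g R) :
    ∃ (n : ℕ) (c : ℂ) (a : ℝ × ℝ), c ≠ 0 ∧
      g =ᵐ[volume] fun t => c * tfShift a (hermiteFn n) t := by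
  -- the norm of `g`
  set S : ℝ := ∫ t, ‖g t‖ ^ 2 with hS
  have hSpos : 0 < S := by
    have hint : Integrable (fun t => ‖g t‖ ^ 2) volume :=
      (memLp_two_iff_integrable_sq_norm hg.aestronglyMeasurable).1 hg
    have hnn : 0 ≤ S := integral_nonneg fun t => by positivity
    rcases hnn.lt_or_eq with h1 | h1
    · exact h1
    · exfalso
      apply hne
      have h2 := (integral_eq_zero_iff_of_nonneg (fun t => by positivity) hint).1 h1.symm
      filter_upwards [h2] with t ht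
      simpa using ht
  have hA0 : amb g 0 = (S : ℂ) := amb_zero g
  have hGd : Differentiable ℂ (Barg g) := barg_differentiable hg
  -- radii tending to zero
  choose R hR0 hRk hRf using fun k : ℕ => h (1 / ((k : ℝ) + 1)) (by positivity)
  choose C hC using fun k : ℕ => formula_barg (hR0 k) (hRf k)
  have hRlim : Tendsto R atTop (𝓝 0) := by
    refine squeeze_zero (fun k => (hR0 k).le) (fun k => (hRk k).le) ?_
    exact tendsto_one_div_add_atTop_nhds_zero_nat
  have hlim : ∀ ζ : ℂ, Tendsto (fun k => gcoef (amb g) S (R k) (C k) * Barg g ζ -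
      π * ζ * conj (qcoef (amb g) S (R k)) * Barg g ζ -
      qcoef (amb g) S (R k) * deriv (Barg g) ζ) atTop (𝓝 (π * ζ * deriv (Barg g) ζ)) := by
    intro ζ
    obtain ⟨α, β, hexp⟩ := integrand_expansion hGd ζ
    rw [Metric.tendsto_atTop]
    intro ε hε
    have hΨ : Continuous (fun ω : ℂ => cexp (-π * (‖ω‖ : ℂ) ^ 2 / 2 + π * ζ * conj ω) *
        Barg g (ζ - ω)) := by
      have h1 : Continuous fun ω : ℂ => Barg g (ζ - ω) := hGd.continuous.comp (by fun_prop)
      have h2 := Complex.continuous_conj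
      have h3 : Continuous fun ω : ℂ => cexp (-π * (‖ω‖ : ℂ) ^ 2 / 2 + π * ζ * conj ω) := by
        fun_prop
      exact h3.mul h1
    obtain ⟨δ, hδ, hmain⟩ := main_estimate (continuous_amb hg) (amb_neg g) hSpos hA0 _ hΨ
      (Barg g ζ) (deriv (Barg g) ζ) _ α β ζ rfl hexp (half_pos hε)
    obtain ⟨N, hN⟩ := (Metric.tendsto_atTop.1 hRlim) δ hδ
    refine ⟨N, fun k hk => ?_⟩
    have h1 : R k < δ := by
      have := hN k hk
      rw [Real.dist_eq, sub_zero, abs_of_pos (hR0 k)] at this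
      exact this
    have h2 := hmain (R k) (hR0 k) h1 (C k) (hC k ζ)
    rw [dist_eq_norm]
    linarith
  obtain ⟨q, γ, hq⟩ := limit_equation (Barg g) (deriv (Barg g)) _ _ hlim
  have hGne : ∃ s, Barg g s ≠ 0 := by
    by_contra hcon
    push Not at hcon
    exact hne (ae_zero_of_barg_zero hg hcon)
  obtain ⟨ζ₀, n, c, hc, hGc⟩ := solve_equation hGd hGne q γ hq
  -- shift back to the origin
  set g' : ℝ → ℂ := tfShift (-ζ₀.re, -ζ₀.im) g with hg'
  have hg'L : MemLp g' 2 volume := memLp_tfShift hg _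
  have hζ₀ : ((ζ₀.re : ℂ) + ζ₀.im * I) = ζ₀ := Complex.re_add_im ζ₀
  have hcζ₀ : ((ζ₀.re : ℂ) - ζ₀.im * I) = conj ζ₀ := by
    apply Complex.ext <;> simp
  obtain ⟨c', hc', hBg'⟩ : ∃ c' : ℂ, c' ≠ 0 ∧ ∀ ζ, Barg g' ζ = c' * ζ ^ n := by
    refine ⟨cexp (-(π * I * ζ₀.re * ζ₀.im)) *
      cexp (-π * (ζ₀.re ^ 2 + ζ₀.im ^ 2) / 2) * c,
      mul_ne_zero (mul_ne_zero (Complex.exp_ne_zero _) (Complex.exp_ne_zero _)) hc, fun ζ => ?_⟩
    have h1 : Barg g' ζ = ip (ker ζ) (tfShift (-ζ₀.re, -ζ₀.im) g) := rfl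
    rw [h1, ip_ker_tfShift]
    have h2 : ζ - ((((-ζ₀.re : ℝ)) : ℂ) + ((-ζ₀.im : ℝ) : ℂ) * I) = ζ + ζ₀ := by
      nth_rewrite 3 [← hζ₀]
      push_cast
      ring
    have h3 : cexp (-π * ((((-ζ₀.re : ℝ)) : ℂ) ^ 2 + ((-ζ₀.im : ℝ) : ℂ) ^ 2) / 2 +
        π * ζ * ((((-ζ₀.re : ℝ)) : ℂ) - ((-ζ₀.im : ℝ) : ℂ) * I)) =
        cexp (-π * (ζ₀.re ^ 2 + ζ₀.im ^ 2) / 2) * cexp (-(π * conj ζ₀ * ζ)) := by
      rw [← Complex.exp_add, ← hcζ₀]
      congr 1
      push_cast
      ring
    have h4 : cexp (-(π * conj ζ₀ * ζ)) * cexp (π * conj ζ₀ * ζ) = 1 := by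
      rw [← Complex.exp_add, neg_add_cancel, Complex.exp_zero]
    simp only
    rw [h2, h3, hGc, add_sub_cancel_right]
    have h5 : cexp (-(π * I * ((-ζ₀.re : ℝ) : ℂ) * ((-ζ₀.im : ℝ) : ℂ))) =
        cexp (-(π * I * ζ₀.re * ζ₀.im)) := by
      congr 1
      push_cast
      ring
    rw [h5]
    linear_combination (cexp (-(π * I * ζ₀.re * ζ₀.im)) *
      cexp (-π * (ζ₀.re ^ 2 + ζ₀.im ^ 2) / 2) * c * ζ ^ n) * h4
  obtain ⟨d, hd, hg'd⟩ := eq_hermiteRaw_of_barg hg'L n c' hc' hBg'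
  -- recover `g` from `g'`
  have hback : ∀ t, g t = cexp (-(2 * π * I * ζ₀.im * ζ₀.re)) *
      (cexp (2 * π * I * ζ₀.im * t) * g' (t - ζ₀.re)) := by
    intro t
    rw [hg', tfShift, ← mul_assoc, ← mul_assoc, ← Complex.exp_add, ← Complex.exp_add]
    have h1 : (-(2 * π * I * ζ₀.im * ζ₀.re) + 2 * π * I * ζ₀.im * t +
        2 * π * I * ((((-ζ₀.re, -ζ₀.im) : ℝ × ℝ).2 : ℝ) : ℂ) * ((t - ζ₀.re : ℝ) : ℂ)) = 0 := by
      push_cast
      ring
    rw [h1, Complex.exp_zero, one_mul]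
    congr 1
    simp
  have hae : ∀ᵐ t ∂(volume : Measure ℝ), g' (t - ζ₀.re) = d * hermiteRaw n (t - ζ₀.re) :=
    (measurePreserving_sub_right volume ζ₀.re).quasiMeasurePreserving.ae hg'd
  -- the normalising constant is not zero
  set N : ℝ := Real.sqrt (∫ s, hermiteRaw n s ^ 2) with hN
  have hN0 : N ≠ 0 := by
    intro hN0
    have h1 : ∫ s, hermiteRaw n s ^ 2 = 0 := by
      have h2 : 0 ≤ ∫ s, hermiteRaw n s ^ 2 := integral_nonneg fun s => by positivity
      have h3 := Real.sqrt_eq_zero'.1 hN0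
      linarith
    have h2 := (integral_eq_zero_iff_of_nonneg (fun t => by positivity)
      (integrable_hermiteRaw_sq n)).1 h1
    have h3 : ∀ᵐ t ∂(volume : Measure ℝ), hermiteRaw n (t - ζ₀.re) ^ 2 = 0 :=
      (measurePreserving_sub_right volume ζ₀.re).quasiMeasurePreserving.ae h2
    apply hne
    filter_upwards [hae, h3] with t ht1 ht2
    have h4 : hermiteRaw n (t - ζ₀.re) = 0 := by simpa using ht2
    rw [hback, ht1, h4]
    simp
  refine ⟨n, cexp (-(2 * π * I * ζ₀.im * ζ₀.re)) * (d * N), (ζ₀.re, ζ₀.im),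
    mul_ne_zero (Complex.exp_ne_zero _) (mul_ne_zero hd (Complex.ofReal_ne_zero.2 hN0)), ?_⟩
  filter_upwards [hae] with t ht
  rw [hback, ht, tfShift, hermiteFn, ← hN]
  push_cast
  have hNc : (N : ℂ) ≠ 0 := Complex.ofReal_ne_zero.2 hN0
  field_simp

end

end Pool.Agent.Results.MP_42c7e8_an.HermiteOnly
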